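import Mathlib
import Pool.Agent.Lib.MP_89bcae_ag.Bra.Defs
import Pool.Agent.Lib.MP_89bcae_ag.Bra.DefsA

/-!
# The surfaces `s ^ (ℓ ^ r) = D(g(x) - y ^ ℓ)`
-/

open Polynomial

open scoped Classical

namespace Pool.Agent.Lib.MP_89bcae_ag.Brt

open Pool.Agent.Lib.MP_89bcae_ag.Bra

/-- `K` is generated over `F` by `x`, `y`, `s`, where `x` and `y` are algebraically independent and
`s ^ (ℓ ^ r) = D(g(x) - y ^ ℓ)`. -/
structure IsTowerField (ℓ r : ℕ) {k : Type} (F : Type) {K : Type} [Field k] [Field F] [Algebra k F]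
    [Field K] [Algebra F K] (g D : k[X]) (x y s : K) : Prop where
  independent : AlgebraicIndependent F ![x, y]
  equation : s ^ ℓ ^ r = aeval (aeval x (g.map (algebraMap k F)) - y ^ ℓ) (D.map (algebraMap k F))
  generate : IntermediateField.adjoin F {x, y, s} = ⊤

/-- `A` is the integral closure of `F(t, s)[x]` in `K`: for all `n`, the elements of the Picard group of `A` are
`ℓ ^ n`-th powers. For `K` as in `IsTowerField`, `t = g(x) - y ^ ℓ`, if `ℓ` does not divide the degree of `g`, the
Picard group of `A` is the group of the points over `F(t, s)` of the Jacobian of the curve `y ^ ℓ = g(x) - t`. -/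
def PicardDivisibleOver (ℓ : ℕ) (F : Type) {K : Type} [Field F] [Field K] [Algebra F K] (t s x : K) : Prop :=
  ∀ (n : ℕ) (P : CommRing.Pic (affineRing F {t, s} x)),
    ∃ Q : CommRing.Pic (affineRing F {t, s} x), P = Q ^ ℓ ^ n

/-- The surfaces `s ^ (ℓ ^ r) = D(g(x) - y ^ ℓ)`, all `r ≥ 0`, over an algebraic closure `F` of `k`. For all finite
extensions `k'` of `k` in `F`, the elements of the `ℓ`-adic Tate module of the Brauer group of a smooth
projective model which are fixed by the automorphisms over `k'(x, y, s)` are trivial. The Picard group of the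
integral closure of `F(t, s)[x]`, `t = g(x) - y ^ ℓ`, satisfies `PicardDivisibleOver`. -/
structure TowerTate (ℓ : ℕ) (k : Type) [Field k] (g D : k[X]) : Prop where
  brauer : ∀ (r : ℕ) (F K S : Type) [Field F] [Algebra k F] [IsAlgClosure k F] [Field K] [Algebra F K]
    [Field S] [Algebra K S] [IsAlgClosure K S] (x y s : K), IsTowerField ℓ r F g D x y s →
    ∀ k' : IntermediateField k F, FiniteDimensional k k' → BrauerInvariantsTrivial ℓ S k' x y s
  picard : ∀ (r : ℕ) (F K : Type) [Field F] [Algebra k F] [IsAlgClosure k F] [Field K] [Algebra F K]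
    (x y s : K), IsTowerField ℓ r F g D x y s →
    PicardDivisibleOver ℓ F (aeval x (g.map (algebraMap k F)) - y ^ ℓ) s x

end Pool.Agent.Lib.MP_89bcae_ag.Brt
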